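import Pool.Agent.Work.MP_dc7914_al.Defs

/-!
# The average character degree, and three types of factors
-/

set_option autoImplicit false

namespace Pool.Agent.RadIndex

open Pool.Agent.DC7914

/-- the average degree of the irreducible complex characters -/
noncomputable def acd (G : Type*) [Group G] : ℝ :=
  (∑ᶠ χ : {χ : G → ℂ // IsIrrChar χ}, ‖χ.1 1‖) / Nat.card {χ : G → ℂ // IsIrrChar χ}

/-- `c^7 k(S)^8 ≤ |S|` -/
def FewType (S : Type) [Group S] (c : ℕ) : Prop :=
  c ^ 7 * Nat.card (ConjClasses S) ^ 8 ≤ Nat.card S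

/-- `S` is the symmetric or the alternating group of degree `n`, with `n ≥ 31` and `c = 1`, or with
`2 c^7 (2 p(n))^8 ≤ n!`, where `p(n)` is the number of partitions of `n` -/
def AltType (S : Type) [Group S] (c : ℕ) : Prop :=
  ∃ n : ℕ, (Nonempty (S ≃* Equiv.Perm (Fin n)) ∨ Nonempty (S ≃* alternatingGroup (Fin n))) ∧
    ((31 ≤ n ∧ c = 1) ∨ 2 * (c ^ 7 * (2 * Fintype.card (Nat.Partition n)) ^ 8) ≤ n.factorial)

/-- `S = K / Z` where `K` is a subgroup of `Γ` of index less than `a` and `Z` is a normal subgroup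
of `K` of order less than `a` -/
def IsSection (Γ S : Type) [Group Γ] [Group S] (a : ℕ) : Prop :=
  ∃ (K : Subgroup Γ) (f : K →* S), K.index < a ∧ Function.Surjective f ∧ Nat.card f.ker < a

/-- `S = K / Z` where `K` is a subgroup of `GL_n(q)` of index less than `q` and `Z` is a normal
subgroup of `K` of order less than `q` (for instance `S = PSL_n(q)`, `S = PGL_n(q)`), with `n ≥ 18`
and `c = 1`, or with `c^7 q^(17 n + 2) ≤ q^(n^2)` -/
def LinType (S : Type) [Group S] (c : ℕ) : Prop :=
  ∃ (n : ℕ) (F : Type) (_ : Field F) (_ : Finite F),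
    IsSection (Matrix.GeneralLinearGroup (Fin n) F) S (Nat.card F) ∧
    ((18 ≤ n ∧ c = 1) ∨ c ^ 7 * Nat.card F ^ (17 * n + 2) ≤ Nat.card F ^ (n ^ 2))

end Pool.Agent.RadIndex
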