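import Mathlib

/-!
# Upper bounds for the number of partitions
-/

set_option autoImplicit false

namespace Pool.Agent.RadIndex

open Nat (Partition)

/-- the number of partitions of `n` -/
noncomputable def pn (n : ℕ) : ℕ := Fintype.card (Partition n)

open Classical in
/-- the number of partitions of `n` into parts `≤ K` -/
noncomputable def pk (K n : ℕ) : ℕ :=
  (Finset.univ.filter (fun p : Partition n => ∀ i ∈ p.parts, i ≤ K)).card

theorem pk_self (n : ℕ) : pk n n = pn n := by
  unfold pk pn
  rw [Finset.filter_true_of_mem]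
  · rfl
  · intro p _ i hi
    exact p.le_of_mem_parts hi

theorem pk_zero_le (n : ℕ) : pk 0 n ≤ 1 := by
  unfold pk
  rw [Finset.card_le_one]
  intro p hp q hq
  rw [Finset.mem_filter] at hp hq
  have h : ∀ r : Partition n, (∀ i ∈ r.parts, i ≤ 0) → r.parts = 0 := by
    intro r hr
    rw [Multiset.eq_zero_iff_forall_notMem]
    intro i hi
    have h1 := hr i hi
    have h2 := r.parts_pos hi
    omega
  ext1
  rw [h p hp.2, h q hq.2]

/-- removing a part `K + 1` -/
theorem pk_succ_le (K n : ℕ) :
    pk (K + 1) n ≤ pk K n + (if K + 1 ≤ n then pk (K + 1) (n - (K + 1)) else 0) := by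
  classical
  unfold pk
  have h1 : (Finset.univ.filter (fun p : Partition n => ∀ i ∈ p.parts, i ≤ K + 1)) ⊆
      (Finset.univ.filter (fun p : Partition n => ∀ i ∈ p.parts, i ≤ K)) ∪
      (Finset.univ.filter (fun p : Partition n => (∀ i ∈ p.parts, i ≤ K + 1) ∧ K + 1 ∈ p.parts)) := by
    intro p hp
    rw [Finset.mem_filter] at hp
    rw [Finset.mem_union, Finset.mem_filter, Finset.mem_filter]
    by_cases h : K + 1 ∈ p.parts
    · exact Or.inr ⟨Finset.mem_univ _, hp.2, h⟩
    · left
      refine ⟨Finset.mem_univ _, fun i hi => ?_⟩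
      have h2 := hp.2 i hi
      have h3 : i ≠ K + 1 := fun h4 => h (h4 ▸ hi)
      omega
  refine (Finset.card_le_card h1).trans ((Finset.card_union_le _ _).trans ?_)
  refine Nat.add_le_add_left ?_ _
  split_ifs with hn
  · refine Finset.card_le_card_of_injOn
      (fun p => if h : K + 1 ∈ p.parts then
        Partition.partitionWithPartEquiv (Nat.succ_le_succ (Nat.zero_le K)) hn ⟨p, h⟩
        else Partition.indiscrete _) ?_ ?_
    · intro p hp
      rw [Finset.mem_coe, Finset.mem_filter] at hp
      rw [Finset.mem_coe, Finset.mem_filter]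
      refine ⟨Finset.mem_univ _, ?_⟩
      simp only [dif_pos hp.2.2, Partition.partitionWithPartEquiv_apply_parts]
      intro i hi
      exact hp.2.1 i (Multiset.mem_of_mem_erase hi)
    · intro p hp q hq h
      rw [Finset.mem_coe, Finset.mem_filter] at hp hq
      simp only [dif_pos hp.2.2, dif_pos hq.2.2] at h
      have h2 := (Partition.partitionWithPartEquiv (Nat.succ_le_succ (Nat.zero_le K)) hn).injective h
      exact congrArg Subtype.val h2
  · rw [Nat.le_zero, Finset.card_eq_zero, Finset.filter_eq_empty_iff]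
    rintro p - ⟨-, h3⟩
    exact hn (p.le_of_mem_parts h3)

theorem pk_one_le (n : ℕ) : pk 1 n ≤ 1 := by
  unfold pk
  rw [Finset.card_le_one]
  intro p hp q hq
  rw [Finset.mem_filter] at hp hq
  have h : ∀ r : Partition n, (∀ i ∈ r.parts, i ≤ 1) → r.parts = Multiset.replicate n 1 := by
    intro r hr
    have h1 : r.parts = Multiset.replicate r.parts.card 1 := by
      rw [Multiset.eq_replicate_card]
      intro i hi
      have h1 := hr i hi
      have h2 := r.parts_pos hi
      omega
    have h2 := r.parts_sum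
    rw [h1, Multiset.sum_replicate, smul_eq_mul, mul_one] at h2
    rw [h1, h2]
  ext1
  rw [h p hp.2, h q hq.2]

theorem pk_two_le (n : ℕ) : pk 2 n ≤ n / 2 + 1 := by
  induction n using Nat.strong_induction_on with
  | _ n ih =>
    have h1 := pk_succ_le 1 n
    have h2 := pk_one_le n
    split_ifs at h1 with h
    · have h3 := ih (n - 2) (by omega)
      have h4 : pk (1 + 1) (n - (1 + 1)) = pk 2 (n - 2) := rfl
      have h5 : pk (1 + 1) n = pk 2 n := rfl
      rw [h4, h5] at h1
      omega
    · have h5 : pk (1 + 1) n = pk 2 n := rfl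
      rw [h5] at h1
      omega

/-- partial sums, for evaluation by the kernel -/
def SS (f : ℕ → ℕ) (d : ℕ) : ℕ → ℕ → ℕ
  | 0, n => f n
  | j + 1, n => f n + SS f d j (n - d)

/-- an upper bound for `pk (k + 2) n` -/
def FF : ℕ → ℕ → ℕ
  | 0, n => n / 2 + 1
  | k + 1, n => SS (FF k) (k + 3) (n / (k + 3)) n

theorem pk_le_FF (k : ℕ) : ∀ n, pk (k + 2) n ≤ FF k n := by
  induction k with
  | zero => exact pk_two_le
  | succ k ih =>
    have key : ∀ j n, n / (k + 3) ≤ j → pk (k + 3) n ≤ SS (FF k) (k + 3) j n := by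
      intro j
      induction j with
      | zero =>
        intro n hn
        have h1 := pk_succ_le (k + 2) n
        have h2 : ¬ (k + 2 + 1 ≤ n) := by
          intro h3
          have : 1 ≤ n / (k + 3) := (Nat.one_le_div_iff (by omega)).2 h3
          omega
        rw [if_neg h2] at h1
        exact h1.trans (ih n)
      | succ j ihj =>
        intro n hn
        have h1 := pk_succ_le (k + 2) n
        have h2 : (if k + 2 + 1 ≤ n then pk (k + 2 + 1) (n - (k + 2 + 1)) else 0) ≤
            SS (FF k) (k + 3) j (n - (k + 3)) := by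
          split_ifs with h3
          · refine ihj (n - (k + 3)) ?_
            have h4 : n / (k + 3) = (n - (k + 3)) / (k + 3) + 1 := by
              have := Nat.add_div_right (n - (k + 3)) (show 0 < k + 3 by omega)
              rw [Nat.sub_add_cancel h3] at this
              exact this
            omega
          · exact Nat.zero_le _
        exact h1.trans (Nat.add_le_add (ih n) h2)
    intro n
    exact key _ n le_rfl

theorem pn_le_FF (n : ℕ) : pn (n + 2) ≤ FF n (n + 2) := by
  rw [← pk_self]
  exact pk_le_FF n (n + 2)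

/-- `p(n) ≤ p(n-1) + p(n-2)` -/
theorem pn_rec (n : ℕ) : pn (n + 2) ≤ pn (n + 1) + pn n := by
  classical
  unfold pn
  rw [← Finset.card_univ (α := Partition (n + 2)),
    ← Finset.card_filter_add_card_filter_not (s := (Finset.univ : Finset (Partition (n + 2))))
      (fun p => 1 ∈ p.parts)]
  refine Nat.add_le_add ?_ ?_
  · rw [← Fintype.card_subtype]
    have e : {p : Partition (n + 2) // 1 ∈ p.parts} ≃ Partition (n + 2 - 1) :=
      Partition.partitionWithPartEquiv le_rfl (by omega)
    rw [Fintype.card_congr e]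
    exact le_rfl
  · rw [← Fintype.card_subtype]
    have hne : ∀ p : {p : Partition (n + 2) // ¬ 1 ∈ p.parts}, ∃ s, s ∈ p.1.parts := by
      intro p
      by_contra h
      push Not at h
      have h0 : p.1.parts = 0 := Multiset.eq_zero_iff_forall_notMem.2 h
      have := p.1.parts_sum
      rw [h0] at this
      simp at this
    choose s hs using hne
    have hs2 : ∀ p, 2 ≤ s p := by
      intro p
      have h1 := p.1.parts_pos (hs p)
      have h2 : s p ≠ 1 := fun h => by
        have h3 := hs p
        rw [h] at h3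
        exact p.2 h3
      omega
    refine Fintype.card_le_of_injective (fun p =>
      (⟨p.1.parts.erase (s p) + Multiset.replicate (s p - 2) 1, ?_, ?_⟩ : Partition n)) ?_
    · intro i hi
      rcases Multiset.mem_add.1 hi with h | h
      · exact p.1.parts_pos (Multiset.mem_of_mem_erase h)
      · rw [Multiset.eq_of_mem_replicate h]; exact Nat.one_pos
    · have h1 := congrArg Multiset.sum (Multiset.cons_erase (hs p))
      rw [Multiset.sum_cons, p.1.parts_sum] at h1
      rw [Multiset.sum_add, Multiset.sum_replicate, smul_eq_mul, mul_one]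
      have := hs2 p
      omega
    · intro p q h
      have h1 : p.1.parts.erase (s p) + Multiset.replicate (s p - 2) 1 =
          q.1.parts.erase (s q) + Multiset.replicate (s q - 2) 1 := by
        have h0 := congrArg (fun r : Partition n => r.parts) h
        exact h0
      have hc : ∀ r : {p : Partition (n + 2) // ¬ 1 ∈ p.parts},
          Multiset.count 1 (r.1.parts.erase (s r) + Multiset.replicate (s r - 2) 1) = s r - 2 := by
        intro r
        rw [Multiset.count_add, Multiset.count_replicate_self]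
        have : Multiset.count 1 (r.1.parts.erase (s r)) = 0 :=
          Multiset.count_eq_zero_of_notMem fun h => r.2 (Multiset.mem_of_mem_erase h)
        rw [this, zero_add]
      have h2 : s p = s q := by
        have h3 := hc p
        rw [h1, hc q] at h3
        have := hs2 p
        have := hs2 q
        omega
      rw [h2] at h1
      have h3 : p.1.parts.erase (s q) = q.1.parts.erase (s q) := add_right_cancel h1
      apply Subtype.ext
      ext1
      rw [← Multiset.cons_erase (hs p), ← Multiset.cons_erase (hs q), h2, h3]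

theorem pn_small : ∀ n : ℕ, n < 18 → 2 * (2 * FF (n + 29) (n + 31)) ^ 8 ≤ (n + 31).factorial := by
  decide +kernel

theorem FF_47 : FF 45 47 ≤ 124754 ∧ FF 46 48 ≤ 147273 := by decide +kernel

theorem pn_aux (f : ℕ → ℝ) (h0 : f 0 ≤ 124754) (h1 : f 1 ≤ 147273)
    (hr : ∀ n, f (n + 2) ≤ f (n + 1) + f n) (n : ℕ) :
    f n ≤ 124754 * (81 / 50) ^ n ∧ f (n + 1) ≤ 124754 * (81 / 50) ^ (n + 1) := by
  induction n with
  | zero =>
    constructor
    · rw [pow_zero, mul_one]; exact h0
    · refine h1.trans ?_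
      norm_num
  | succ n ih =>
    refine ⟨ih.2, ?_⟩
    have h1 := hr n
    have h2 : (0 : ℝ) < (81 / 50) ^ n := by positivity
    have h3 : ((81 : ℝ) / 50) ^ (n + 1) = (81 / 50) ^ n * (81 / 50) := pow_succ _ _
    have h4 : ((81 : ℝ) / 50) ^ (n + 1 + 1) = (81 / 50) ^ n * (81 / 50) * (81 / 50) := by
      rw [pow_succ, pow_succ]
    rw [h3] at ih
    rw [h4]
    have e : n + 1 + 1 = n + 2 := rfl
    rw [e]
    nlinarith [ih.1, ih.2]

theorem fact_aux (f : ℕ → ℝ) (h0 : 2 * (2 * (124754 : ℝ)) ^ 8 ≤ f 0)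
    (hr : ∀ n : ℕ, f (n + 1) = ((n : ℝ) + 48) * f n) (n : ℕ) :
    2 * (2 * (124754 * (81 / 50 : ℝ) ^ n)) ^ 8 ≤ f n := by
  induction n with
  | zero => rw [pow_zero, mul_one]; exact h0
  | succ n ih =>
    have h1 : 2 * (2 * (124754 * (81 / 50 : ℝ) ^ (n + 1))) ^ 8 =
        (81 / 50) ^ 8 * (2 * (2 * (124754 * (81 / 50 : ℝ) ^ n)) ^ 8) := by
      rw [pow_succ]; ring
    rw [h1, hr n]
    have h2 : ((81 : ℝ) / 50) ^ 8 ≤ n + 48 := by
      have : (0 : ℝ) ≤ n := Nat.cast_nonneg n
      have h3 : ((81 : ℝ) / 50) ^ 8 ≤ 48 := by norm_num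
      linarith
    have h3 : (0 : ℝ) ≤ 2 * (2 * (124754 * (81 / 50 : ℝ) ^ n)) ^ 8 := by positivity
    exact mul_le_mul h2 ih h3 (by positivity)

theorem fact_base : 2 * (2 * 124754) ^ 8 ≤ Nat.factorial 47 := by decide +kernel

theorem mono_aux (a b : ℝ) (ha : 0 ≤ a) (hab : a ≤ b) : 2 * (2 * a) ^ 8 ≤ 2 * (2 * b) ^ 8 := by
  have h1 : 2 * a ≤ 2 * b := by linarith
  have h2 : (2 * a) ^ 8 ≤ (2 * b) ^ 8 := pow_le_pow_left₀ (by linarith) h1 8
  linarith

theorem large_aux (p f : ℕ → ℕ) (hp0 : p 0 ≤ 124754) (hp1 : p 1 ≤ 147273)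
    (hp : ∀ n, p (n + 2) ≤ p (n + 1) + p n) (hf0 : 2 * (2 * 124754) ^ 8 ≤ f 0)
    (hf : ∀ n, f (n + 1) = (n + 48) * f n) (n : ℕ) : 2 * (2 * p n) ^ 8 ≤ f n := by
  have h1 := (pn_aux (fun n => (p n : ℝ)) (by exact_mod_cast hp0) (by exact_mod_cast hp1)
    (fun n => by exact_mod_cast hp n) n).1
  have h2 := fact_aux (fun n => (f n : ℝ))
    (by
      have h3 : ((2 * (2 * 124754) ^ 8 : ℕ) : ℝ) ≤ (f 0 : ℝ) := Nat.cast_le.2 hf0
      refine le_trans (le_of_eq ?_) h3
      push_cast
      norm_num)
    (fun n => by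
      have h4 : ((f (n + 1) : ℕ) : ℝ) = (((n + 48) * f n : ℕ) : ℝ) := by rw [hf n]
      rw [h4]
      push_cast
      rfl) n
  have h3 : ((2 * (2 * p n) ^ 8 : ℕ) : ℝ) ≤ (f n : ℝ) := by
    have h5 := (mono_aux _ _ (Nat.cast_nonneg (p n)) h1).trans h2
    push_cast
    exact h5
  exact Nat.cast_le.1 h3

/-- the number of partitions is small compared with the factorial -/
theorem pn_bound (n : ℕ) (hn : 31 ≤ n) : 2 * (2 * pn n) ^ 8 ≤ n.factorial := by
  rcases Nat.lt_or_ge n 49 with h | h
  · obtain ⟨m, hm⟩ := Nat.exists_eq_add_of_le' hn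
    have h1 := pn_small m (by omega)
    have h2 : pn (m + 31) ≤ FF (m + 29) (m + 31) := pn_le_FF (m + 29)
    rw [hm]
    refine le_trans ?_ h1
    exact Nat.mul_le_mul_left _ (Nat.pow_le_pow_left (Nat.mul_le_mul_left _ h2) 8)
  · obtain ⟨m, hm⟩ := Nat.exists_eq_add_of_le' (show 47 ≤ n by omega)
    have h1 := large_aux (fun n => pn (n + 47)) (fun n => Nat.factorial (n + 47))
      ((pn_le_FF 45).trans FF_47.1) ((pn_le_FF 46).trans FF_47.2) (fun n => pn_rec (n + 47))
      fact_base (fun n => Nat.factorial_succ (n + 47)) m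
    rw [hm]
    exact h1

end Pool.Agent.RadIndex
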