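import Pool.Agent.Work.MP_76dc41_al.Bd.B02

/-!
# The groups between `PSL_n(q)` and `PGL_n(q)`, `n ≥ 18`, have few classes
-/

set_option autoImplicit false

namespace Pool.Agent.RadIndex

theorem kcl_quot {H : Type*} [Group H] [Finite H] (Z : Subgroup H) [Z.Normal] :
    kcl (H ⧸ Z) ≤ kcl H :=
  Nat.card_le_card_of_surjective (f := ConjClasses.map (QuotientGroup.mk' Z))
    (ConjClasses.map_surjective Quotient.mk''_surjective)

theorem card_GL_ge (n : ℕ) (F : Type) [Field F] [Finite F] :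
    Nat.card F ^ (n * (n - 1)) ≤ Nat.card (Matrix.GeneralLinearGroup (Fin n) F) := by
  classical
  have := Fintype.ofFinite F
  rw [Matrix.card_GL_field, ← Nat.card_eq_fintype_card, mul_comm, pow_mul]
  have h2 : 2 ≤ Nat.card F := Finite.one_lt_card
  calc (Nat.card F ^ (n - 1)) ^ n = ∏ _i : Fin n, Nat.card F ^ (n - 1) := by
        rw [Finset.prod_const, Finset.card_univ, Fintype.card_fin]
    _ ≤ _ := Finset.prod_le_prod' fun i _ => by
        obtain ⟨m, rfl⟩ : ∃ m, n = m + 1 := ⟨n - 1, by have := i.2; omega⟩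
        have h3 : Nat.card F ^ (i : ℕ) ≤ Nat.card F ^ m :=
          Nat.pow_le_pow_right (by omega) (by have := i.2; omega)
        have h4 : 2 * Nat.card F ^ m ≤ Nat.card F ^ (m + 1) := by
          rw [pow_succ, mul_comm]
          exact Nat.mul_le_mul_left _ h2
        rw [Nat.add_sub_cancel]
        omega

/-- `K / Z` for `K ≤ GL_n(q)` of index `< q` and `Z` normal in `K` of order `< q` -/
theorem gl_bound (n c : ℕ) (F : Type) [Field F] [Finite F]
    (K : Subgroup (Matrix.GeneralLinearGroup (Fin n) F)) (hK : K.index < Nat.card F)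
    (Z : Subgroup K) [Z.Normal] (hZ : Nat.card Z < Nat.card F)
    (h : c ^ 7 * Nat.card F ^ (17 * n + 2) ≤ Nat.card F ^ (n ^ 2)) :
    c ^ 7 * kcl (K ⧸ Z) ^ 8 ≤ Nat.card (K ⧸ Z) := by
  have hq : 2 ≤ Nat.card F := Finite.one_lt_card
  set q := Nat.card F with hqdef
  rcases Nat.eq_zero_or_pos c with rfl | hc
  · simp
  have hn : 1 ≤ n := by
    by_contra hn
    have h0 : n = 0 := by omega
    subst h0
    have h1 : 1 ≤ c ^ 7 := Nat.one_le_pow _ _ hc
    have h2 : 2 ^ 2 ≤ q ^ 2 := Nat.pow_le_pow_left hq 2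
    have h3 := Nat.mul_le_mul h1 h2
    simp only [mul_zero, zero_add, ne_eq, OfNat.ofNat_ne_zero, not_false_eq_true, zero_pow,
      pow_zero] at h
    omega
  have h1 : kcl (K ⧸ Z) ≤ q ^ (2 * n) := by
    calc kcl (K ⧸ Z) ≤ kcl K := kcl_quot Z
      _ ≤ K.index * kcl (Matrix.GeneralLinearGroup (Fin n) F) := kcl_subgroup K
      _ ≤ q * (q ^ (n - 1) * q ^ n) := by
          refine Nat.mul_le_mul hK.le ((kcl_GL n F).trans ?_)
          exact Nat.mul_le_mul_right _ (Nat.pow_le_pow_left hq _)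
      _ = q ^ (2 * n) := by
          obtain ⟨m, rfl⟩ : ∃ m, n = m + 1 := ⟨n - 1, by omega⟩
          rw [Nat.add_sub_cancel]
          ring
  have h2 : q ^ (n * (n - 1)) ≤ Nat.card (K ⧸ Z) * q ^ 2 := by
    have h3 := card_GL_ge n F
    rw [← hqdef] at h3
    have h4 : Nat.card K * K.index = Nat.card (Matrix.GeneralLinearGroup (Fin n) F) :=
      K.card_mul_index
    have h5 : Nat.card Z * Nat.card (K ⧸ Z) = Nat.card K := Z.card_mul_index
    calc q ^ (n * (n - 1)) ≤ Nat.card Z * Nat.card (K ⧸ Z) * K.index := by rw [h5, h4]; exact h3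
      _ ≤ q * Nat.card (K ⧸ Z) * q := Nat.mul_le_mul (Nat.mul_le_mul_right _ hZ.le) hK.le
      _ = Nat.card (K ⧸ Z) * q ^ 2 := by ring
  have h6 : kcl (K ⧸ Z) ^ 8 ≤ q ^ (16 * n) := by
    calc kcl (K ⧸ Z) ^ 8 ≤ (q ^ (2 * n)) ^ 8 := Nat.pow_le_pow_left h1 8
      _ = q ^ (16 * n) := by rw [← pow_mul]; ring_nf
  have h7 : c ^ 7 * q ^ (16 * n) * q ^ (n + 2) ≤ Nat.card (K ⧸ Z) * q ^ (n + 2) := by
    calc c ^ 7 * q ^ (16 * n) * q ^ (n + 2) = c ^ 7 * q ^ (17 * n + 2) := by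
          rw [mul_assoc, ← pow_add]
          congr 2
          ring
      _ ≤ q ^ (n ^ 2) := h
      _ = q ^ (n * (n - 1)) * q ^ n := by
          rw [← pow_add]
          congr 1
          obtain ⟨m, rfl⟩ : ∃ m, n = m + 1 := ⟨n - 1, by omega⟩
          rw [Nat.add_sub_cancel]
          ring
      _ ≤ Nat.card (K ⧸ Z) * q ^ 2 * q ^ n := Nat.mul_le_mul_right _ h2
      _ = Nat.card (K ⧸ Z) * q ^ (n + 2) := by ring
  exact (Nat.mul_le_mul_left _ h6).trans (Nat.le_of_mul_le_mul_right h7 (by positivity))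

end Pool.Agent.RadIndex
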